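import Mathlib

/-! Covering lemma for upper bounds of the Hausdorff dimension of limsup sets. -/

set_option autoImplicit false

open MeasureTheory Set Filter
open scoped ENNReal

namespace Pool.Agent.N760.Pos

theorem limsup_cover {X ι : Type} [MetricSpace X] [MeasurableSpace X] [BorelSpace X] [Countable ι]
    (T : ι → Set X) (s : ℝ) (hs : 0 < s)
    (h : ∑' i, (Metric.ediam (T i))^s ≠ ∞) :
    dimH {x | {i | x ∈ T i}.Infinite} ≤ ENNReal.ofReal s := by
  have h0 := ENNReal.tendsto_tsum_compl_atTop_zero h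
  have hr : Filter.Tendsto (fun F : Finset ι =>
      (∑' b : {x // x ∉ F}, (Metric.ediam (T b))^s)^(1/s)) Filter.atTop (nhds 0) := by
    have h1 := (ENNReal.continuous_rpow_const (y := 1/s)).tendsto 0 |>.comp h0
    rw [ENNReal.zero_rpow_of_pos (by positivity)] at h1
    exact h1
  have key : Measure.hausdorffMeasure s {x : X | {i | x ∈ T i}.Infinite} ≤
      Filter.liminf (fun F : Finset ι => ∑' b : {x // x ∉ F}, (Metric.ediam (T b))^s)
        Filter.atTop := by
    refine Measure.hausdorffMeasure_le_liminf_tsum s _ _ hr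
      (fun (F : Finset ι) (b : {x // x ∉ F}) => T b) ?_ ?_
    · refine Filter.Eventually.of_forall fun F b => ?_
      have h2 : (Metric.ediam (T b))^s ≤ ∑' b : {x // x ∉ F}, (Metric.ediam (T b))^s :=
        ENNReal.le_tsum b
      calc Metric.ediam (T b) = ((Metric.ediam (T b))^s)^(1/s) := by
            rw [← ENNReal.rpow_mul, mul_one_div_cancel hs.ne', ENNReal.rpow_one]
        _ ≤ _ := ENNReal.rpow_le_rpow h2 (by positivity)
    · refine Filter.Eventually.of_forall fun F x hx => ?_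
      obtain ⟨i, hi, hiF⟩ := Set.Infinite.exists_notMem_finset hx F
      exact Set.mem_iUnion.2 ⟨⟨i, hiF⟩, hi⟩
  rw [h0.liminf_eq] at key
  have h3 : Measure.hausdorffMeasure ((s.toNNReal : NNReal) : ℝ)
      {x : X | {i | x ∈ T i}.Infinite} ≠ ∞ := by
    rw [Real.coe_toNNReal s hs.le]
    exact ne_top_of_le_ne_top (by simp) key
  exact dimH_le_of_hausdorffMeasure_ne_top h3

/-- level by level version: at level `m` there are at most `N m` sets of diameter at most `δ m` -/
theorem level_cover {X : Type} [MetricSpace X] [MeasurableSpace X] [BorelSpace X]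
    (ι : ℕ → Type) [∀ m, Fintype (ι m)] (N : ℕ → ℝ) (hN : ∀ m, (Fintype.card (ι m) : ℝ) ≤ N m)
    (T : (m : ℕ) → ι m → Set X) (δ : ℕ → ℝ) (hδ : ∀ m, 0 ≤ δ m)
    (s : ℝ) (hs : 0 < s) (hT : ∀ m j, Metric.ediam (T m j) ≤ ENNReal.ofReal (δ m))
    (hsum : Summable fun m => N m * δ m ^ s) (A : Set X)
    (hA : ∀ x ∈ A, ∃ᶠ m in atTop, ∃ j, x ∈ T m j) :
    dimH A ≤ ENNReal.ofReal s := by
  have h1 := limsup_cover (ι := Σ m : ℕ, ι m) (fun i => T i.1 i.2) s hs ?_
  · refine (dimH_mono ?_).trans h1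
    intro x hx
    have h2 := hA x hx
    intro hfin
    have h3 := (hfin.image Sigma.fst).bddAbove
    obtain ⟨B, hB⟩ := h3
    obtain ⟨m, hm, j, hj⟩ := (Filter.frequently_atTop.1 h2) (B + 1)
    have h4 : m ≤ B := hB ⟨⟨m, j⟩, hj, rfl⟩
    omega
  · rw [ENNReal.tsum_sigma' (fun i : Σ m : ℕ, ι m => (Metric.ediam (T i.1 i.2)) ^ s)]
    refine ne_top_of_le_ne_top hsum.tsum_ofReal_ne_top ?_
    refine ENNReal.tsum_le_tsum fun m => ?_
    rw [tsum_fintype]
    calc ∑ j, (Metric.ediam (T m j)) ^ s ≤ ∑ _j : ι m, ENNReal.ofReal (δ m) ^ s :=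
          Finset.sum_le_sum fun j _ => ENNReal.rpow_le_rpow (hT m j) hs.le
      _ = ENNReal.ofReal ((Fintype.card (ι m) : ℝ) * δ m ^ s) := by
          rw [Finset.sum_const, Finset.card_univ, nsmul_eq_mul,
            ENNReal.ofReal_mul (Nat.cast_nonneg _), ENNReal.ofReal_natCast,
            ENNReal.ofReal_rpow_of_nonneg (hδ m) hs.le]
      _ ≤ ENNReal.ofReal (N m * δ m ^ s) := by
          apply ENNReal.ofReal_le_ofReal
          have := Real.rpow_nonneg (hδ m) s
          gcongr
          exact hN m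

end Pool.Agent.N760.Pos
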