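import Mathlib
import Pool.Agent.H438R2.Bridge

/-! Lower bound for the dimension of the pairs with many small values of linear forms with positive
coefficients. -/

set_option autoImplicit false

open MeasureTheory Set Filter Matrix
open scoped ENNReal

namespace Pool.Agent.N760.Pos

open Pool.Agent.H438R2

/-- the set in the plane with the product structure -/
def EF (w : ℝ) : Set (Fin 2 → ℝ) :=
  {x | ∃ c : ℝ, 0 < c ∧ {t : ℤ × ℤ × ℤ | 0 < t.1 ∧ 0 < t.2.1 ∧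
    |(t.1 : ℝ) * x 0 + (t.2.1 : ℝ) * x 1 + (t.2.2 : ℝ)| <
      c * (max (t.1 : ℝ) (t.2.1 : ℝ)) ^ (-w)}.Infinite}

/-- all solutions, without a condition on the signs -/
def Tall (w : ℝ) (x : Fin 2 → ℝ) : Set (ℤ × ℤ × ℤ) :=
  {t | (t.1 ≠ 0 ∨ t.2.1 ≠ 0) ∧ |(t.1 : ℝ) * x 0 + (t.2.1 : ℝ) * x 1 + (t.2.2 : ℝ)| <
    3 * (max |(t.1 : ℝ)| |(t.2.1 : ℝ)|) ^ (-w)}

theorem mnr_two {R : Type} [CommRing R] {N : ℕ} (B : Matrix (Fin 2) (Fin N) R) (f : Fin 2 → Fin N) :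
    mnr B f = B 0 (f 0) * B 1 (f 1) - B 0 (f 1) * B 1 (f 0) := by
  unfold mnr
  rw [Matrix.det_fin_two]
  simp [Matrix.submatrix_apply]

theorem pp_swap {L : Submodule ℝ (Fin 3 → ℝ)} {p : (Fin 2 → Fin 3) → ℤ} (h : IsPP L p)
    (f g : Fin 2 → Fin 3) (h0 : f 0 = g 1) (h1 : f 1 = g 0) : p f = -p g := by
  obtain ⟨B, _, _, c, hc, hm⟩ := h.ex
  have e1 := hm f
  have e2 := hm g
  rw [mnr_two] at e1 e2
  rw [h0, h1] at e1
  have e3 : c * p f = c * (-p g) := by rw [← e1, mul_neg, ← e2]; ring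
  exact mul_left_cancel₀ hc e3

theorem pp_eta (p : (Fin 2 → Fin 3) → ℤ) (f : Fin 2 → Fin 3) : p f = p ![f 0, f 1] := by
  congr 1
  ext i
  fin_cases i <;> rfl

theorem ht_le {L : Submodule ℝ (Fin 3 → ℝ)} {p : (Fin 2 → Fin 3) → ℤ} (h : IsPP L p) (B : ℕ)
    (h1 : (p ![1, 2]).natAbs ≤ B) (h2 : (p ![0, 2]).natAbs ≤ B) (h3 : (p ![1, 0]).natAbs ≤ B) :
    ht p ≤ B := by
  unfold ht
  apply Finset.sup_le
  intro f _
  have key : ∀ i j : Fin 3, (p ![i, j]).natAbs ≤ B := by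
    intro i j
    have hz : ∀ i : Fin 3, p ![i, i] = 0 := fun i => h.of_eq ![i, i] 0 1 (by decide) rfl
    have hs : ∀ i j : Fin 3, p ![i, j] = - p ![j, i] := fun i j => pp_swap h _ _ rfl rfl
    fin_cases i <;> fin_cases j
    · simp [hz 0]
    · show (p ![0, 1]).natAbs ≤ B
      rw [hs 0 1, Int.natAbs_neg]; exact h3
    · exact h2
    · exact h3
    · simp [hz 1]
    · exact h1
    · show (p ![2, 0]).natAbs ≤ B
      rw [hs 2 0, Int.natAbs_neg]; exact h2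
    · show (p ![2, 1]).natAbs ≤ B
      rw [hs 2 1, Int.natAbs_neg]; exact h1
    · simp [hz 2]
  rw [pp_eta p f]
  exact key _ _

theorem pp_form {L : Submodule ℝ (Fin 3 → ℝ)} {p : (Fin 2 → Fin 3) → ℤ} (h : IsPP L p)
    (x : Fin 3 → ℝ) (hx : x ∈ L) :
    (p ![1, 2] : ℝ) * x 0 + (-(p ![0, 2] : ℝ)) * x 1 + (-(p ![1, 0] : ℝ)) * x 2 = 0 := by
  have h1 := h.identity hx ![1, 2] 0
  rw [Fin.sum_univ_two] at h1
  have e1 : Function.update (![1, 2] : Fin 2 → Fin 3) 0 0 = ![0, 2] := by decide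
  have e2 : Function.update (![1, 2] : Fin 2 → Fin 3) 1 0 = ![1, 0] := by decide
  rw [e1, e2] at h1
  simp only [Matrix.cons_val_zero, Matrix.cons_val_one] at h1
  linarith

theorem Tall_infinite (w v : ℝ) (hw : 0 < w) (hv : w < v - 1) (θ : Fin 2 → ℝ)
    (h : θ ∈ WS 2 2 1 v) : (Tall w θ).Infinite := by
  intro hfin
  -- a bound for the solutions
  obtain ⟨B, hB⟩ : ∃ B : ℕ, ∀ t ∈ Tall w θ, t.1.natAbs ≤ B ∧ t.2.1.natAbs ≤ B ∧ t.2.2.natAbs ≤ B := by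
    obtain ⟨B, hB⟩ := (hfin.image (fun t => t.1.natAbs + t.2.1.natAbs + t.2.2.natAbs)).bddAbove
    refine ⟨B, fun t ht => ?_⟩
    have := hB ⟨t, ht, rfl⟩
    simp only at this
    omega
  have h1 : (({L : Submodule ℝ (Fin (2 + 1) → ℝ) | ∃ p : (Fin 2 → Fin (2 + 1)) → ℤ, IsPP L p ∧
    ∃ P ∈ L, P 0 = 1 ∧ ∀ i : Fin 2, |P i.succ - θ i| ≤ 1 * (ht p : ℝ) ^ (-v)}) \
      {L : Submodule ℝ (Fin (2 + 1) → ℝ) | ∃ p : (Fin 2 → Fin (2 + 1)) → ℤ, IsPP L p ∧ ht p ≤ B}).Infinite :=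
    h.sdiff (finite_ht B)
  obtain ⟨L, ⟨p, hp, P, hP, hP0, hPθ⟩, hL⟩ := h1.nonempty
  have hht : B < ht p := by
    by_contra hcon
    push Not at hcon
    exact hL ⟨p, hp, hcon⟩
  have hht1 : (1 : ℝ) ≤ ht p := by exact_mod_cast (by omega : 1 ≤ ht p)
  have hht0 : (0 : ℝ) < ht p := by linarith
  have hform := pp_form hp P hP
  rw [hP0, mul_one] at hform
  obtain ⟨a, ha⟩ : ∃ a : ℤ, a = - p ![0, 2] := ⟨_, rfl⟩
  obtain ⟨b, hb⟩ : ∃ b : ℤ, b = - p ![1, 0] := ⟨_, rfl⟩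
  obtain ⟨r, hr⟩ : ∃ r : ℤ, r = p ![1, 2] := ⟨_, rfl⟩
  have haR : (a : ℝ) = -(p ![0, 2] : ℝ) := by rw [ha]; push_cast; rfl
  have hbR : (b : ℝ) = -(p ![1, 0] : ℝ) := by rw [hb]; push_cast; rfl
  have hrR : (r : ℝ) = (p ![1, 2] : ℝ) := by rw [hr]
  rw [← haR, ← hbR, ← hrR] at hform
  have habs : ∀ z : ℤ, (z.natAbs ≤ ht p) → |(z : ℝ)| ≤ ht p := by
    intro z hz
    have : ((z.natAbs : ℕ) : ℝ) ≤ ht p := by exact_mod_cast hz
    rwa [Nat.cast_natAbs, Int.cast_abs] at this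
  have ha1 : |(a : ℝ)| ≤ ht p := habs a (by rw [ha, Int.natAbs_neg]; exact le_ht p _)
  have hb1 : |(b : ℝ)| ≤ ht p := habs b (by rw [hb, Int.natAbs_neg]; exact le_ht p _)
  have hne : a ≠ 0 ∨ b ≠ 0 := by
    by_contra hcon
    push Not at hcon
    obtain ⟨ha0, hb0⟩ := hcon
    rw [ha0, hb0] at hform
    simp only [Int.cast_zero, zero_mul, add_zero] at hform
    have hr0 : r = 0 := by exact_mod_cast hform
    have : ht p ≤ 0 := by
      apply ht_le hp 0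
      · rw [← hr, hr0]; simp
      · have : p ![0, 2] = 0 := by omega
        rw [this]; simp
      · have : p ![1, 0] = 0 := by omega
        rw [this]; simp
    omega
  have hmax1 : 1 ≤ max |(a : ℝ)| |(b : ℝ)| := by
    rcases hne with h | h
    · exact le_max_of_le_left (by exact_mod_cast Int.one_le_abs h)
    · exact le_max_of_le_right (by exact_mod_cast Int.one_le_abs h)
  have hval : |(a : ℝ) * θ 0 + (b : ℝ) * θ 1 + (r : ℝ)| ≤ 2 * (ht p : ℝ) ^ (-w) := by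
    have e0 := hPθ 0
    have e1 := hPθ 1
    rw [one_mul] at e0 e1
    have e2 : (a : ℝ) * θ 0 + (b : ℝ) * θ 1 + (r : ℝ) =
        -(a * (P (Fin.succ 0) - θ 0)) - b * (P (Fin.succ 1) - θ 1) := by
      have e3 : P (Fin.succ 0) = P 1 := rfl
      have e4 : P (Fin.succ 1) = P 2 := rfl
      rw [e3, e4]
      linarith
    rw [e2]
    calc _ ≤ |-(a * (P (Fin.succ 0) - θ 0))| + |b * (P (Fin.succ 1) - θ 1)| := abs_sub _ _
      _ ≤ ht p * (ht p : ℝ) ^ (-v) + ht p * (ht p : ℝ) ^ (-v) := by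
          rw [abs_neg, abs_mul, abs_mul]
          gcongr
      _ = 2 * (ht p : ℝ) ^ (1 - v) := by
          rw [sub_eq_add_neg, Real.rpow_add hht0, Real.rpow_one]; ring
      _ ≤ 2 * (ht p : ℝ) ^ (-w) := by
          have := Real.rpow_le_rpow_of_exponent_le hht1 (show 1 - v ≤ -w by linarith)
          linarith
  have hmem : (a, b, r) ∈ Tall w θ := by
    refine ⟨hne, lt_of_le_of_lt hval ?_⟩
    have h2 : (ht p : ℝ) ^ (-w) ≤ (max |(a : ℝ)| |(b : ℝ)|) ^ (-w) :=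
      Real.rpow_le_rpow_of_nonpos (by linarith) (max_le ha1 hb1) (by linarith)
    have h3 : 0 < (max |(a : ℝ)| |(b : ℝ)|) ^ (-w) := by positivity
    simp only
    linarith
  obtain ⟨h4, h5, h6⟩ := hB _ hmem
  simp only at h4 h5 h6
  have : ht p ≤ B := ht_le hp B (by rw [← hr]; exact h6)
    (by rw [ha, Int.natAbs_neg] at h4; exact h4) (by rw [hb, Int.natAbs_neg] at h5; exact h5)
  omega

/-- transfer of an infinite set of solutions -/
theorem transfer (w : ℝ) (θ η : Fin 2 → ℝ) (S : Set (ℤ × ℤ × ℤ)) (hS : S.Infinite)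
    (hST : S ⊆ Tall w θ) (φ : ℤ × ℤ × ℤ → ℤ × ℤ × ℤ) (hφ : Set.InjOn φ S)
    (hpos : ∀ t ∈ S, 0 < (φ t).1 ∧ 0 < (φ t).2.1)
    (hval : ∀ t ∈ S, |((φ t).1 : ℝ) * η 0 + ((φ t).2.1 : ℝ) * η 1 + ((φ t).2.2 : ℝ)| =
      |(t.1 : ℝ) * θ 0 + (t.2.1 : ℝ) * θ 1 + (t.2.2 : ℝ)|)
    (hmax : ∀ t ∈ S, max ((φ t).1 : ℝ) ((φ t).2.1 : ℝ) = max |(t.1 : ℝ)| |(t.2.1 : ℝ)|) :
    η ∈ EF w := by
  refine ⟨3, by norm_num, ?_⟩
  refine (hS.image hφ).mono ?_
  rintro _ ⟨t, ht, rfl⟩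
  refine ⟨(hpos t ht).1, (hpos t ht).2, ?_⟩
  rw [hval t ht, hmax t ht]
  exact (hST ht).2

/-- reflection -/
noncomputable def sg : (Fin 2 → ℝ) ≃L[ℝ] (Fin 2 → ℝ) :=
  LinearEquiv.toContinuousLinearEquiv
    { toFun := fun x => ![x 0, -x 1]
      invFun := fun x => ![x 0, -x 1]
      map_add' := fun x y => by ext i; fin_cases i <;> simp; ring
      map_smul' := fun c x => by ext i; fin_cases i <;> simp
      left_inv := fun x => by ext i; fin_cases i <;> simp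
      right_inv := fun x => by ext i; fin_cases i <;> simp }

/-- first shear -/
noncomputable def s1 : (Fin 2 → ℝ) ≃L[ℝ] (Fin 2 → ℝ) :=
  LinearEquiv.toContinuousLinearEquiv
    { toFun := fun x => ![x 0, x 1 - x 0]
      invFun := fun x => ![x 0, x 1 + x 0]
      map_add' := fun x y => by ext i; fin_cases i <;> simp; ring
      map_smul' := fun c x => by ext i; fin_cases i <;> simp; ring
      left_inv := fun x => by ext i; fin_cases i <;> simp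
      right_inv := fun x => by ext i; fin_cases i <;> simp }

/-- second shear -/
noncomputable def s2 : (Fin 2 → ℝ) ≃L[ℝ] (Fin 2 → ℝ) :=
  LinearEquiv.toContinuousLinearEquiv
    { toFun := fun x => ![x 0 - x 1, x 1]
      invFun := fun x => ![x 0 + x 1, x 1]
      map_add' := fun x y => by ext i; fin_cases i <;> simp; ring
      map_smul' := fun c x => by ext i; fin_cases i <;> simp; ring
      left_inv := fun x => by ext i; fin_cases i <;> simp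
      right_inv := fun x => by ext i; fin_cases i <;> simp }

theorem cover_EF (w v : ℝ) (hw : 0 < w) (hv : w < v - 1) :
    {θ : Fin 2 → ℝ | θ ∈ cube 2 ∧ θ ∈ WS 2 2 1 v} ⊆
      EF w ∪ (sg ⁻¹' (EF w) ∪ (s1 ⁻¹' (EF w) ∪ s2 ⁻¹' (EF w))) := by
  rintro θ ⟨-, hθ⟩
  have hinf := Tall_infinite w v hw hv θ hθ
  obtain ⟨T, hT⟩ : ∃ T, T = Tall w θ := ⟨_, rfl⟩
  rw [← hT] at hinf
  have hsub : T ⊆ ({t ∈ T | 0 < t.1 ∧ 0 < t.2.1} ∪ {t ∈ T | t.1 < 0 ∧ t.2.1 < 0}) ∪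
      ({t ∈ T | 0 < t.1 ∧ t.2.1 < 0} ∪ {t ∈ T | t.1 < 0 ∧ 0 < t.2.1}) ∪
      (({t ∈ T | t.1 = 0 ∧ 0 < t.2.1} ∪ {t ∈ T | t.1 = 0 ∧ t.2.1 < 0}) ∪
      ({t ∈ T | 0 < t.1 ∧ t.2.1 = 0} ∪ {t ∈ T | t.1 < 0 ∧ t.2.1 = 0})) := by
    intro t ht
    have hne : t.1 ≠ 0 ∨ t.2.1 ≠ 0 := by rw [hT] at ht; exact ht.1
    simp only [Set.mem_union, Set.mem_ofPred_eq, ht, true_and]
    omega
  have hinf2 := hinf.mono hsub
  rw [Set.infinite_union, Set.infinite_union, Set.infinite_union, Set.infinite_union,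
    Set.infinite_union, Set.infinite_union, Set.infinite_union] at hinf2
  have absp : ∀ z : ℤ, 0 < z → |(z : ℝ)| = z := fun z hz => abs_of_pos (by exact_mod_cast hz)
  have absn : ∀ z : ℤ, z < 0 → |(z : ℝ)| = -z := fun z hz => abs_of_neg (by exact_mod_cast hz)
  rcases hinf2 with ((h | h) | (h | h)) | ((h | h) | (h | h))
  · left
    refine transfer w θ θ _ h (fun t ht => hT ▸ ht.1) id (Set.injOn_id _) ?_ ?_ ?_
    · rintro t ⟨_, h1, h2⟩; exact ⟨h1, h2⟩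
    · intro t _; rfl
    · rintro t ⟨_, h1, h2⟩; simp only [id, absp _ h1, absp _ h2]
  · left
    refine transfer w θ θ _ h (fun t ht => hT ▸ ht.1) (fun t => (-t.1, -t.2.1, -t.2.2)) ?_ ?_ ?_ ?_
    · rintro ⟨a, b, c⟩ _ ⟨a', b', c'⟩ _ h; simpa using h
    · rintro t ⟨_, h1, h2⟩; simp only; omega
    · rintro t _; simp only; rw [← abs_neg]; push_cast; congr 1; ring
    · rintro t ⟨_, h1, h2⟩; simp only [absn _ h1, absn _ h2]; push_cast; rfl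
  · right; left
    refine transfer w θ (sg θ) _ h (fun t ht => hT ▸ ht.1) (fun t => (t.1, -t.2.1, t.2.2)) ?_ ?_ ?_ ?_
    · rintro ⟨a, b, c⟩ _ ⟨a', b', c'⟩ _ h; simpa using h
    · rintro t ⟨_, h1, h2⟩; simp only; omega
    · rintro t _
      show |((t.1 : ℤ) : ℝ) * θ 0 + ((-t.2.1 : ℤ) : ℝ) * (-θ 1) + (t.2.2 : ℝ)| = _
      push_cast; congr 1; ring
    · rintro t ⟨_, h1, h2⟩; simp only [absp _ h1, absn _ h2]; push_cast; rfl
  · right; left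
    refine transfer w θ (sg θ) _ h (fun t ht => hT ▸ ht.1) (fun t => (-t.1, t.2.1, -t.2.2)) ?_ ?_ ?_ ?_
    · rintro ⟨a, b, c⟩ _ ⟨a', b', c'⟩ _ h; simpa using h
    · rintro t ⟨_, h1, h2⟩; simp only; omega
    · rintro t _
      show |((-t.1 : ℤ) : ℝ) * θ 0 + ((t.2.1 : ℤ) : ℝ) * (-θ 1) + ((-t.2.2 : ℤ) : ℝ)| = _
      rw [← abs_neg]; push_cast; congr 1; ring
    · rintro t ⟨_, h1, h2⟩; simp only [absn _ h1, absp _ h2]; push_cast; rfl
  · right; right; left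
    refine transfer w θ (s1 θ) _ h (fun t ht => hT ▸ ht.1) (fun t => (t.2.1, t.2.1, t.2.2)) ?_ ?_ ?_ ?_
    · rintro ⟨a, b, c⟩ ⟨_, h1, _⟩ ⟨a', b', c'⟩ ⟨_, h2, _⟩ h
      simp only [Prod.mk.injEq] at h h1 h2 ⊢
      exact ⟨by rw [h1, h2], h.1, h.2.2⟩
    · rintro t ⟨_, h1, h2⟩; exact ⟨h2, h2⟩
    · rintro t ⟨_, h1, h2⟩
      show |((t.2.1 : ℤ) : ℝ) * θ 0 + ((t.2.1 : ℤ) : ℝ) * (θ 1 - θ 0) + (t.2.2 : ℝ)| = _
      rw [h1]; push_cast; congr 1; ring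
    · rintro t ⟨_, h1, h2⟩
      have : (0 : ℝ) < t.2.1 := by exact_mod_cast h2
      simp only [h1, absp _ h2]; push_cast; rw [abs_zero, max_self, max_eq_right this.le]
  · right; right; left
    refine transfer w θ (s1 θ) _ h (fun t ht => hT ▸ ht.1) (fun t => (-t.2.1, -t.2.1, -t.2.2)) ?_ ?_ ?_ ?_
    · rintro ⟨a, b, c⟩ ⟨_, h1, _⟩ ⟨a', b', c'⟩ ⟨_, h2, _⟩ h
      simp only [Prod.mk.injEq, neg_inj] at h h1 h2 ⊢
      exact ⟨by rw [h1, h2], h.1, h.2.2⟩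
    · rintro t ⟨_, h1, h2⟩; simp only; omega
    · rintro t ⟨_, h1, h2⟩
      show |((-t.2.1 : ℤ) : ℝ) * θ 0 + ((-t.2.1 : ℤ) : ℝ) * (θ 1 - θ 0) + ((-t.2.2 : ℤ) : ℝ)| = _
      rw [h1, ← abs_neg]; push_cast; congr 1; ring
    · rintro t ⟨_, h1, h2⟩
      have : (0 : ℝ) < -t.2.1 := by
        have : (t.2.1 : ℝ) < 0 := by exact_mod_cast h2
        linarith
      simp only [h1, absn _ h2]; push_cast; rw [abs_zero, max_self, max_eq_right this.le]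
  · right; right; right
    refine transfer w θ (s2 θ) _ h (fun t ht => hT ▸ ht.1) (fun t => (t.1, t.1, t.2.2)) ?_ ?_ ?_ ?_
    · rintro ⟨a, b, c⟩ ⟨_, _, h1⟩ ⟨a', b', c'⟩ ⟨_, _, h2⟩ h
      simp only [Prod.mk.injEq] at h h1 h2 ⊢
      exact ⟨h.1, by rw [h1, h2], h.2.2⟩
    · rintro t ⟨_, h1, h2⟩; exact ⟨h1, h1⟩
    · rintro t ⟨_, h1, h2⟩
      show |((t.1 : ℤ) : ℝ) * (θ 0 - θ 1) + ((t.1 : ℤ) : ℝ) * (θ 1) + (t.2.2 : ℝ)| = _
      rw [h2]; push_cast; congr 1; ring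
    · rintro t ⟨_, h1, h2⟩
      have : (0 : ℝ) < t.1 := by exact_mod_cast h1
      simp only [h2, absp _ h1]; push_cast; rw [abs_zero, max_self, max_eq_left this.le]
  · right; right; right
    refine transfer w θ (s2 θ) _ h (fun t ht => hT ▸ ht.1) (fun t => (-t.1, -t.1, -t.2.2)) ?_ ?_ ?_ ?_
    · rintro ⟨a, b, c⟩ ⟨_, _, h1⟩ ⟨a', b', c'⟩ ⟨_, _, h2⟩ h
      simp only [Prod.mk.injEq, neg_inj] at h h1 h2 ⊢
      exact ⟨h.1, by rw [h1, h2], h.2.2⟩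
    · rintro t ⟨_, h1, h2⟩; simp only; omega
    · rintro t ⟨_, h1, h2⟩
      show |((-t.1 : ℤ) : ℝ) * (θ 0 - θ 1) + ((-t.1 : ℤ) : ℝ) * (θ 1) + ((-t.2.2 : ℤ) : ℝ)| = _
      rw [h2, ← abs_neg]; push_cast; congr 1; ring
    · rintro t ⟨_, h1, h2⟩
      have : (0 : ℝ) < -t.1 := by
        have : (t.1 : ℝ) < 0 := by exact_mod_cast h1
        linarith
      simp only [h2, absn _ h1]; push_cast; rw [abs_zero, max_self, max_eq_left this.le]

theorem lower_EF (w : ℝ) (hw : 2 < w) : ENNReal.ofReal (1 + 3 / (w + 1)) ≤ dimH (EF w) := by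
  have hw1 : 0 < w + 1 := by linarith
  have key : ∀ v s : ℝ, w + 1 < v → 1 < s → s < 1 + 3 / v → ENNReal.ofReal s ≤ dimH (EF w) := by
    intro v s hv hs1 hs2
    have h1 := lower 2 2 (by norm_num) le_rfl v s (by norm_num; linarith) (by norm_num; linarith)
      (by norm_num; linarith)
    refine h1.trans ((dimH_mono (cover_EF w v (by linarith) (by linarith))).trans ?_)
    rw [dimH_union, dimH_union, dimH_union, ContinuousLinearEquiv.dimH_preimage,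
      ContinuousLinearEquiv.dimH_preimage, ContinuousLinearEquiv.dimH_preimage, max_self, max_self,
      max_self]
  by_contra hcon
  push Not at hcon
  obtain ⟨s, hs0, hs1, hs2⟩ := ENNReal.lt_iff_exists_real_btwn.1 hcon
  rw [ENNReal.ofReal_lt_ofReal_iff_of_nonneg hs0] at hs2
  have hq : 0 < 3 / (w + 1) := by positivity
  obtain ⟨s', hs'⟩ : ∃ s' : ℝ, s' = max s (1 + 3 / (w + 1) / 2) := ⟨_, rfl⟩
  have h1 : s ≤ s' := hs' ▸ le_max_left _ _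
  have h2 : 1 < s' := by
    have : 1 + 3 / (w + 1) / 2 ≤ s' := hs' ▸ le_max_right _ _
    linarith
  have h3 : s' < 1 + 3 / (w + 1) := by
    rw [hs']; exact max_lt hs2 (by linarith)
  have h4 : w + 1 < 3 / (s' - 1) := by
    rw [lt_div_iff₀ (by linarith)]
    have h5 : s' - 1 < 3 / (w + 1) := by linarith
    rw [lt_div_iff₀ hw1] at h5
    linarith
  obtain ⟨v, hv1, hv2⟩ := exists_between h4
  have hv0 : 0 < v := by linarith
  have h5 : s' < 1 + 3 / v := by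
    rw [lt_div_iff₀ (by linarith)] at hv2
    have : s' - 1 < 3 / v := by rw [lt_div_iff₀ hv0]; linarith
    linarith
  exact absurd (ENNReal.ofReal_le_ofReal h1) (not_le.2 ((key v s' hv1 h2 h5).trans_lt hs1))

end Pool.Agent.N760.Pos
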