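import Mathlib
import Pool.Agent.N760.PosCover

/-! Upper bound for the dimension of the pairs with many small values of linear forms with positive
coefficients. -/

set_option autoImplicit false

open MeasureTheory Set Filter
open scoped ENNReal

namespace Pool.Agent.N760.Pos

/-- the plane -/
abbrev E2 := EuclideanSpace ℝ (Fin 2)

/-- the bounded part of the set -/
def AK (w : ℝ) (K : ℕ) : Set E2 :=
  {x | |x 0| ≤ (K : ℝ) ∧ |x 1| ≤ (K : ℝ) ∧ {t : ℤ × ℤ × ℤ | 0 < t.1 ∧ 0 < t.2.1 ∧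
    |(t.1 : ℝ) * x 0 + (t.2.1 : ℝ) * x 1 + (t.2.2 : ℝ)| <
      (K : ℝ) * (max (t.1 : ℝ) (t.2.1 : ℝ)) ^ (-w)}.Infinite}

/-- number of cells -/
noncomputable def Jn (w : ℝ) (K M : ℕ) : ℕ := ⌈(K : ℝ) * (M : ℝ) ^ (w + 1)⌉₊ + 1

/-- index set of level `m` -/
def Ix (w : ℝ) (K : ℕ) (m : ℕ) : Type :=
  Fin (m + 2) × Fin (2 * (3 * K * (m + 1)) + 1) × Fin (2 * Jn w K (m + 1) + 1) × Bool

noncomputable instance (w : ℝ) (K m : ℕ) : Fintype (Ix w K m) := by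
  unfold Ix; infer_instance

/-- the pieces of the strips -/
def Tc (w : ℝ) (K : ℕ) (m : ℕ) (i : Ix w K m) : Set E2 :=
  {x | |((if i.2.2.2 then ((m + 1 : ℕ) : ℝ) else ((i.1 : ℕ) : ℝ)) * x 0 +
      (if i.2.2.2 then ((i.1 : ℕ) : ℝ) else ((m + 1 : ℕ) : ℝ)) * x 1 +
      (((i.2.1 : ℕ) : ℝ) - (3 * K * (m + 1) : ℕ)))| ≤ (K : ℝ) * ((m + 1 : ℕ) : ℝ) ^ (-w) ∧
    (((i.2.2.1 : ℕ) : ℝ) - (Jn w K (m + 1) : ℕ)) * ((m + 1 : ℕ) : ℝ) ^ (-(w + 1)) ≤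
      (if i.2.2.2 then x 1 else x 0) ∧
    (if i.2.2.2 then x 1 else x 0) ≤
      ((((i.2.2.1 : ℕ) : ℝ) - (Jn w K (m + 1) : ℕ)) + 1) * ((m + 1 : ℕ) : ℝ) ^ (-(w + 1))}

theorem strip_diff (M b r K ρ y z u v : ℝ) (hM : 0 < M) (hb0 : 0 ≤ b) (hbM : b ≤ M)
    (h1 : |M * u + b * y + r| ≤ K * (M * ρ)) (h2 : |M * v + b * z + r| ≤ K * (M * ρ))
    (h3 : |y - z| ≤ ρ) : |u - v| ≤ (2 * K + 1) * ρ := by
  have h4 : |M * (u - v)| ≤ M * ((2 * K + 1) * ρ) := by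
    have e : M * (u - v) = (M * u + b * y + r) - (M * v + b * z + r) - b * (y - z) := by ring
    rw [e]
    calc _ ≤ |(M * u + b * y + r) - (M * v + b * z + r)| + |b * (y - z)| := abs_sub _ _
      _ ≤ (|M * u + b * y + r| + |M * v + b * z + r|) + |b * (y - z)| := by
          gcongr; exact abs_sub _ _
      _ ≤ (K * (M * ρ) + K * (M * ρ)) + M * ρ := by
          rw [abs_mul, abs_of_nonneg hb0]
          gcongr
      _ = M * ((2 * K + 1) * ρ) := by ring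
  rw [abs_mul, abs_of_pos hM] at h4
  exact le_of_mul_le_mul_left h4 hM

theorem Tc_diam (w : ℝ) (K m : ℕ) (i : Ix w K m) :
    Metric.ediam (Tc w K m i) ≤
      ENNReal.ofReal ((2 * K + 2) * ((m + 1 : ℕ) : ℝ) ^ (-(w + 1))) := by
  apply Metric.ediam_le
  intro x hx y hy
  have hM : (0 : ℝ) < ((m + 1 : ℕ) : ℝ) := by positivity
  obtain ⟨ρ, hρ⟩ : ∃ ρ : ℝ, ρ = ((m + 1 : ℕ) : ℝ) ^ (-(w + 1)) := ⟨_, rfl⟩
  have hρ0 : 0 < ρ := by rw [hρ]; positivity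
  have hMρ : ((m + 1 : ℕ) : ℝ) ^ (-w) = ((m + 1 : ℕ) : ℝ) * ρ := by
    rw [hρ, show -w = 1 + -(w + 1) by ring, Real.rpow_add hM, Real.rpow_one]
  have hi1 : ((i.1 : ℕ) : ℝ) ≤ ((m + 1 : ℕ) : ℝ) := by
    have := i.1.2
    exact_mod_cast (by omega : (i.1 : ℕ) ≤ m + 1)
  have hi0 : (0 : ℝ) ≤ ((i.1 : ℕ) : ℝ) := Nat.cast_nonneg _
  have hK0 : (0 : ℝ) ≤ (K : ℝ) := Nat.cast_nonneg _
  rw [edist_dist]
  apply ENNReal.ofReal_le_ofReal
  rw [← hρ]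
  obtain ⟨hx1, hx2, hx3⟩ := hx
  obtain ⟨hy1, hy2, hy3⟩ := hy
  rw [hMρ] at hx1 hy1
  rw [← hρ] at hx2 hx3 hy2 hy3
  have hdist : dist x y ≤ |x 0 - y 0| + |x 1 - y 1| := by
    rw [EuclideanSpace.dist_eq]
    rw [Fin.sum_univ_two, Real.dist_eq, Real.dist_eq]
    apply Real.sqrt_le_iff.2
    constructor
    · positivity
    · nlinarith [abs_nonneg (x 0 - y 0), abs_nonneg (x 1 - y 1)]
  refine hdist.trans ?_
  cases hb : i.2.2.2 with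
  | true =>
    simp only [hb, if_true] at hx1 hx2 hx3 hy1 hy2 hy3
    have h3 : |x 1 - y 1| ≤ ρ := by
      rw [abs_le]; constructor <;> nlinarith
    have h4 := strip_diff _ _ _ _ ρ _ _ _ _ hM hi0 hi1 hx1 hy1 h3
    nlinarith
  | false =>
    simp only [hb] at hx1 hx2 hx3 hy1 hy2 hy3
    simp only [Bool.false_eq_true, if_false] at hx1 hx2 hx3 hy1 hy2 hy3
    have h3 : |x 0 - y 0| ≤ ρ := by
      rw [abs_le]; constructor <;> nlinarith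
    have e1 : ∀ z : E2, ((i.1 : ℕ) : ℝ) * z 0 + ((m + 1 : ℕ) : ℝ) * z 1 = ((m + 1 : ℕ) : ℝ) * z 1 + ((i.1 : ℕ) : ℝ) * z 0 :=
      fun z => add_comm _ _
    rw [e1] at hx1 hy1
    have h4 := strip_diff _ _ _ _ ρ _ _ _ _ hM hi0 hi1 hx1 hy1 h3
    nlinarith

theorem card_Ix (w : ℝ) (hw : 0 < w) (K : ℕ) (hK : 1 ≤ K) (m : ℕ) :
    (Fintype.card (Ix w K m) : ℝ) ≤ (252 * K ^ 2) * ((m + 1 : ℕ) : ℝ) ^ (w + 3) := by
  have hM1 : (1 : ℝ) ≤ ((m + 1 : ℕ) : ℝ) := by exact_mod_cast Nat.le_add_left 1 m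
  have hM : (0 : ℝ) < ((m + 1 : ℕ) : ℝ) := by positivity
  have hK1 : (1 : ℝ) ≤ (K : ℝ) := by exact_mod_cast hK
  obtain ⟨M, hMM⟩ : ∃ M : ℝ, M = ((m + 1 : ℕ) : ℝ) := ⟨_, rfl⟩
  have hpow : (1 : ℝ) ≤ M ^ (w + 1) := by
    rw [hMM]; exact Real.one_le_rpow hM1 (by linarith)
  have hJ : (Jn w K (m + 1) : ℝ) ≤ 3 * K * M ^ (w + 1) := by
    unfold Jn
    push_cast
    have h1 : (⌈(K : ℝ) * ((m + 1 : ℕ) : ℝ) ^ (w + 1)⌉₊ : ℝ) < (K : ℝ) * ((m + 1 : ℕ) : ℝ) ^ (w + 1) + 1 :=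
      Nat.ceil_lt_add_one (by positivity)
    push_cast at h1
    have h2 : (1 : ℝ) ≤ K * M ^ (w + 1) := by nlinarith
    rw [hMM] at h2 ⊢
    push_cast at h2 ⊢
    linarith
  have hcard : Fintype.card (Ix w K m) = (m + 2) * ((2 * (3 * K * (m + 1)) + 1) *
      ((2 * Jn w K (m + 1) + 1) * 2)) := by
    unfold Ix
    simp [Fintype.card_prod]
  rw [hcard]
  push_cast
  have hM' : (m : ℝ) + 1 = M := by rw [hMM]; push_cast; ring
  rw [hM', show (m : ℝ) + 2 = M + 1 by rw [← hM']; ring]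
  have hM1' : 1 ≤ M := by rw [hMM]; exact hM1
  have e : M ^ (w + 3) = M * M * M ^ (w + 1) := by
    rw [show w + 3 = 1 + 1 + (w + 1) by ring, Real.rpow_add (by linarith), Real.rpow_add (by linarith),
      Real.rpow_one]
  rw [e]
  have h1 : M + 1 ≤ 2 * M := by linarith
  have h2 : 2 * (3 * (K : ℝ) * M) + 1 ≤ 9 * K * M := by nlinarith
  have h3 : 2 * (Jn w K (m + 1) : ℝ) + 1 ≤ 7 * K * M ^ (w + 1) := by nlinarith
  calc (M + 1) * ((2 * (3 * (K : ℝ) * M) + 1) * ((2 * (Jn w K (m + 1) : ℝ) + 1) * 2))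
      ≤ (2 * M) * ((9 * K * M) * ((7 * K * M ^ (w + 1)) * 2)) := by gcongr
    _ = 252 * K ^ 2 * (M * M * M ^ (w + 1)) := by ring

/-- the cell of a point -/
theorem exists_cell (w : ℝ) (K M : ℕ) (hM : 1 ≤ M) (y : ℝ) (hy : |y| ≤ (K : ℝ)) :
    ∃ j : Fin (2 * Jn w K M + 1),
      (((j : ℕ) : ℝ) - (Jn w K M : ℕ)) * (M : ℝ) ^ (-(w + 1)) ≤ y ∧
      y ≤ ((((j : ℕ) : ℝ) - (Jn w K M : ℕ)) + 1) * (M : ℝ) ^ (-(w + 1)) := by
  have hM0 : (0 : ℝ) < M := by exact_mod_cast hM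
  obtain ⟨L, hL⟩ : ∃ L : ℝ, L = (M : ℝ) ^ (w + 1) := ⟨_, rfl⟩
  have hL0 : 0 < L := by rw [hL]; positivity
  have hinv : (M : ℝ) ^ (-(w + 1)) = L⁻¹ := by rw [hL, Real.rpow_neg hM0.le]
  have hJ : (K : ℝ) * L + 1 ≤ (Jn w K M : ℝ) := by
    unfold Jn
    push_cast
    rw [hL]
    have := Nat.le_ceil ((K : ℝ) * (M : ℝ) ^ (w + 1))
    linarith
  obtain ⟨z, hz⟩ : ∃ z : ℤ, z = ⌊y * L⌋ := ⟨_, rfl⟩
  have hz1 : (z : ℝ) ≤ y * L := by rw [hz]; exact Int.floor_le _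
  have hz2 : y * L < z + 1 := by rw [hz]; exact Int.lt_floor_add_one _
  have hy1 := (abs_le.1 hy).1
  have hy2 := (abs_le.1 hy).2
  have h1 : -((Jn w K M : ℕ) : ℤ) ≤ z := by
    have : -((Jn w K M : ℕ) : ℝ) < z + 1 := by nlinarith
    have h2 : -((Jn w K M : ℕ) : ℤ) < z + 1 := by exact_mod_cast this
    omega
  have h2 : z ≤ (Jn w K M : ℕ) := by
    have : (z : ℝ) ≤ (Jn w K M : ℕ) := by nlinarith
    exact_mod_cast this
  refine ⟨⟨(z + (Jn w K M : ℕ)).toNat, by omega⟩, ?_⟩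
  have h3 : (((z + (Jn w K M : ℕ)).toNat : ℕ) : ℝ) = z + (Jn w K M : ℕ) := by
    have : (((z + (Jn w K M : ℕ)).toNat : ℕ) : ℤ) = z + (Jn w K M : ℕ) := Int.toNat_of_nonneg (by omega)
    exact_mod_cast this
  simp only [h3, hinv]
  constructor
  · rw [← div_eq_mul_inv, div_le_iff₀ hL0]; linarith
  · rw [← div_eq_mul_inv, le_div_iff₀ hL0]; linarith

theorem coeff_bound (K M a b r x y e : ℝ) (hM : 1 ≤ M) (hK : 1 ≤ K) (ha0 : 0 ≤ a) (haM : a ≤ M)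
    (hb0 : 0 ≤ b) (hbM : b ≤ M) (hx : |x| ≤ K) (hy : |y| ≤ K) (he : e ≤ K)
    (h : |a * x + b * y + r| < e) : |r| ≤ 3 * K * M := by
  have e1 : r = (a * x + b * y + r) - (a * x + b * y) := by ring
  rw [e1]
  calc _ ≤ |a * x + b * y + r| + |a * x + b * y| := abs_sub _ _
    _ ≤ e + (|a * x| + |b * y|) := by gcongr; exact abs_add_le _ _
    _ ≤ K + (M * K + M * K) := by
        rw [abs_mul, abs_mul, abs_of_nonneg ha0, abs_of_nonneg hb0]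
        gcongr
    _ ≤ 3 * K * M := by nlinarith

theorem mem_Tc (w : ℝ) (hw : 0 < w) (K : ℕ) (hK : 1 ≤ K) (m : ℕ) (x : E2) (hx0 : |x 0| ≤ (K : ℝ))
    (hx1 : |x 1| ≤ (K : ℝ)) (a b r : ℤ) (ha : 0 < a) (hb : 0 < b) (hm : max a b = (m + 1 : ℕ))
    (h : |(a : ℝ) * x 0 + (b : ℝ) * x 1 + (r : ℝ)| < (K : ℝ) * ((m + 1 : ℕ) : ℝ) ^ (-w)) :
    ∃ i, x ∈ Tc w K m i := by
  have hM1 : (1 : ℝ) ≤ ((m + 1 : ℕ) : ℝ) := by exact_mod_cast Nat.le_add_left 1 m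
  have hK1 : (1 : ℝ) ≤ (K : ℝ) := by exact_mod_cast hK
  have haM : a ≤ (m + 1 : ℕ) := hm ▸ le_max_left _ _
  have hbM : b ≤ (m + 1 : ℕ) := hm ▸ le_max_right _ _
  have hr : |(r : ℝ)| ≤ 3 * K * ((m + 1 : ℕ) : ℝ) := by
    refine coeff_bound K _ a b r (x 0) (x 1) _ hM1 hK1 (by exact_mod_cast ha.le)
      (by exact_mod_cast haM) (by exact_mod_cast hb.le) (by exact_mod_cast hbM) hx0 hx1 ?_ h
    have h2 : ((m + 1 : ℕ) : ℝ) ^ (-w) ≤ 1 := Real.rpow_le_one_of_one_le_of_nonpos hM1 (by linarith)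
    nlinarith
  have hrZ : |r| ≤ ((3 * K * (m + 1) : ℕ) : ℤ) := by
    have : ((|r| : ℤ) : ℝ) ≤ (((3 * K * (m + 1) : ℕ) : ℤ) : ℝ) := by
      push_cast
      push_cast at hr
      exact hr
    exact_mod_cast this
  obtain ⟨hr1, hr2⟩ := abs_le.1 hrZ
  have hrn : (((r + (3 * K * (m + 1) : ℕ)).toNat : ℕ) : ℝ) = r + (3 * K * (m + 1) : ℕ) := by
    have : (((r + (3 * K * (m + 1) : ℕ)).toNat : ℕ) : ℤ) = r + (3 * K * (m + 1) : ℕ) :=
      Int.toNat_of_nonneg (by omega)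
    exact_mod_cast this
  have hrf : (r + (3 * K * (m + 1) : ℕ)).toNat < 2 * (3 * K * (m + 1)) + 1 := by omega
  rcases le_total b a with hab | hab
  · have ham : a = (m + 1 : ℕ) := by rw [← hm, max_eq_left hab]
    obtain ⟨j, hj1, hj2⟩ := exists_cell w K (m + 1) (by omega) (x 1) hx1
    refine ⟨(⟨b.toNat, by omega⟩, ⟨_, hrf⟩, j, true), ?_⟩
    have hbn : ((b.toNat : ℕ) : ℝ) = b := by
      have : ((b.toNat : ℕ) : ℤ) = b := Int.toNat_of_nonneg hb.le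
      exact_mod_cast this
    have han : (a : ℝ) = ((m + 1 : ℕ) : ℝ) := by exact_mod_cast ham
    rw [han] at h
    refine ⟨?_, ?_, ?_⟩
    · simp only [if_true, hbn, hrn]
      refine le_trans (le_of_eq ?_) h.le
      congr 1
      push_cast
      ring
    · simpa using hj1
    · simpa using hj2
  · have hbm : b = (m + 1 : ℕ) := by rw [← hm, max_eq_right hab]
    obtain ⟨j, hj1, hj2⟩ := exists_cell w K (m + 1) (by omega) (x 0) hx0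
    refine ⟨(⟨a.toNat, by omega⟩, ⟨_, hrf⟩, j, false), ?_⟩
    have han : ((a.toNat : ℕ) : ℝ) = a := by
      have : ((a.toNat : ℕ) : ℤ) = a := Int.toNat_of_nonneg ha.le
      exact_mod_cast this
    have hbn : (b : ℝ) = ((m + 1 : ℕ) : ℝ) := by exact_mod_cast hbm
    rw [hbn] at h
    refine ⟨?_, ?_, ?_⟩
    · simp only [Bool.false_eq_true, if_false, han, hrn]
      refine le_trans (le_of_eq ?_) h.le
      congr 1
      push_cast
      ring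
    · simpa using hj1
    · simpa using hj2

theorem upper_AK (w : ℝ) (hw : 0 < w) (K : ℕ) (hK : 1 ≤ K) (s : ℝ) (hs : 1 + 3 / (w + 1) < s) :
    dimH (AK w K) ≤ ENNReal.ofReal s := by
  have hw1 : 0 < w + 1 := by linarith
  have hs0 : 0 < s := lt_trans (by positivity) hs
  have hK1 : (1 : ℝ) ≤ (K : ℝ) := by exact_mod_cast hK
  have hexp : w + 3 - (w + 1) * s < -1 := by
    have h1 : 3 / (w + 1) < s - 1 := by linarith
    rw [div_lt_iff₀ hw1] at h1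
    nlinarith
  refine level_cover (Ix w K) (fun m => (252 * K ^ 2) * ((m + 1 : ℕ) : ℝ) ^ (w + 3))
    (card_Ix w hw K hK) (Tc w K) (fun m => (2 * K + 2) * ((m + 1 : ℕ) : ℝ) ^ (-(w + 1)))
    (fun m => by positivity) s hs0 (Tc_diam w K) ?_ _ ?_
  · have h1 : Summable fun m : ℕ => ((m : ℕ) : ℝ) ^ (w + 3 - (w + 1) * s) :=
      Real.summable_nat_rpow.2 hexp
    have h2 := ((summable_nat_add_iff 1).2 h1).mul_left ((252 * K ^ 2 : ℝ) * (2 * K + 2) ^ s)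
    refine h2.congr fun m => ?_
    have hM : (0 : ℝ) < ((m + 1 : ℕ) : ℝ) := by positivity
    rw [Real.mul_rpow (by positivity) (by positivity), ← Real.rpow_mul hM.le,
      show w + 3 - (w + 1) * s = (w + 3) + -(w + 1) * s by ring, Real.rpow_add hM]
    ring
  · rintro x ⟨hx0, hx1, hinf⟩
    rw [Filter.frequently_atTop]
    intro B
    by_contra hcon
    push Not at hcon
    apply hinf
    -- all solutions have bounded maximum
    refine (((Set.finite_Icc (0 : ℤ) (B : ℤ)).prod ((Set.finite_Icc (0 : ℤ) (B : ℤ)).prod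
      (Set.finite_Icc (-((3 * K * B : ℕ) : ℤ)) ((3 * K * B : ℕ) : ℤ))))).subset ?_
    rintro ⟨a, b, r⟩ ⟨ha, hb, hlt⟩
    simp only at ha hb hlt
    have hmax : ((max a b : ℤ) : ℝ) = max (a : ℝ) (b : ℝ) := by push_cast; rfl
    rw [← hmax] at hlt
    have hpos : 0 < max a b := lt_of_lt_of_le ha (le_max_left _ _)
    obtain ⟨m, hm⟩ : ∃ m : ℕ, max a b = (m + 1 : ℕ) := ⟨(max a b).toNat - 1, by omega⟩
    rw [hm] at hlt
    have hlt' : |(a : ℝ) * x 0 + (b : ℝ) * x 1 + (r : ℝ)| < (K : ℝ) * ((m + 1 : ℕ) : ℝ) ^ (-w) := by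
      exact_mod_cast hlt
    obtain ⟨i, hi⟩ := mem_Tc w hw K hK m x hx0 hx1 a b r ha hb hm hlt'
    have hmB : m < B := by
      by_contra hge
      push Not at hge
      exact hcon m hge i hi
    have haM : a ≤ (m + 1 : ℕ) := hm ▸ le_max_left _ _
    have hbM : b ≤ (m + 1 : ℕ) := hm ▸ le_max_right _ _
    have hM1 : (1 : ℝ) ≤ ((m + 1 : ℕ) : ℝ) := by exact_mod_cast Nat.le_add_left 1 m
    have hr : |(r : ℝ)| ≤ 3 * K * ((m + 1 : ℕ) : ℝ) := by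
      refine coeff_bound K _ a b r (x 0) (x 1) _ hM1 hK1 (by exact_mod_cast ha.le)
        (by exact_mod_cast haM) (by exact_mod_cast hb.le) (by exact_mod_cast hbM) hx0 hx1 ?_ hlt'
      have h2 : ((m + 1 : ℕ) : ℝ) ^ (-w) ≤ 1 := Real.rpow_le_one_of_one_le_of_nonpos hM1 (by linarith)
      nlinarith
    have hrZ : |r| ≤ ((3 * K * (m + 1) : ℕ) : ℤ) := by
      have : ((|r| : ℤ) : ℝ) ≤ (((3 * K * (m + 1) : ℕ) : ℤ) : ℝ) := by
        push_cast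
        push_cast at hr
        exact hr
      exact_mod_cast this
    have hle : (3 * K * (m + 1) : ℕ) ≤ 3 * K * B := Nat.mul_le_mul_left _ (by omega)
    have hrB : |r| ≤ ((3 * K * B : ℕ) : ℤ) := hrZ.trans (by exact_mod_cast hle)
    obtain ⟨hr1, hr2⟩ := abs_le.1 hrB
    simp only [Set.mem_prod, Set.mem_Icc]
    exact ⟨⟨ha.le, by omega⟩, ⟨hb.le, by omega⟩, hr1, hr2⟩

end Pool.Agent.N760.Pos
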